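import Pool.Agent.H47S.Xb73301BothFail

namespace Pool.Agent.Results.MP_b73301_gt.QOne

open Pool.Agent.Results.MP_b73301_gt.BothFail
open Set Topology Filter
open T

theorem result :
    (∃ (S : Type) (_ : Semigroup S), FDC S ∧ ∃ n, ¬ IsClosed[semiZariski S] (Sle S n)) :=
  parts.1

end Pool.Agent.Results.MP_b73301_gt.QOne
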